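import Pool.Agent.MP_bd94e8_al.H89.Spec

/-!
Valued vertices in the support of a root.
-/

set_option autoImplicit false

namespace Pool.Agent.MP_bd94e8_al.H89

namespace VvA

section gen
variable {I : Type} [Fintype I] [DecidableEq I] {G : I → I → ℤ}

/-- A basis vector. -/
def e (a : I) : I → ℤ := Pi.single a 1

omit [Fintype I] in
theorem e_self (a : I) : e a a = 1 := by simp [e]

omit [Fintype I] in
theorem e_ne {a b : I} (h : b ≠ a) : e a b = 0 := by simp [e, h]

omit [Fintype I] in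
theorem e_nonneg (a : I) : 0 ≤ e a := fun b => by
  by_cases h : b = a
  · subst h; simp [e]
  · simp [e_ne h]

omit [Fintype I] in
theorem sub_e_nonneg {x : I → ℤ} (hx : 0 ≤ x) {a : I} (ha : 0 < x a) : 0 ≤ x - e a := fun b => by
  by_cases h : b = a
  · subst h
    simp only [Pi.zero_apply, Pi.sub_apply, e_self]
    omega
  · simpa [e_ne h] using hx b

omit [DecidableEq I] in
theorem bil_eq (x y : I → ℤ) : bil G x y = ∑ b, y b * gr G x b := by
  simp only [bil, gr, Finset.mul_sum]
  rw [Finset.sum_comm]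
  exact Finset.sum_congr rfl fun b _ => Finset.sum_congr rfl fun a _ => by ring

omit [DecidableEq I] in
theorem gr_add (x y : I → ℤ) (b : I) : gr G (x + y) b = gr G x b + gr G y b := by
  simp only [gr, Pi.add_apply, add_mul, Finset.sum_add_distrib]

omit [DecidableEq I] in
theorem gr_sub (x y : I → ℤ) (b : I) : gr G (x - y) b = gr G x b - gr G y b := by
  simp only [gr, Pi.sub_apply, sub_mul, Finset.sum_sub_distrib]

theorem sum_e (a : I) (f : I → ℤ) : ∑ b, e a b * f b = f a := by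
  simp [e, Pi.single_apply]

theorem gr_e (a b : I) : gr G (e a) b = G a b := sum_e a _

theorem q_add (hs : ∀ a b, G a b = G b a) (hd : ∀ a, G a a = 2) (x : I → ℤ) (a : I) :
    bil G (x + e a) (x + e a) = bil G x x + 2 * gr G x a + 2 := by
  simp only [bil_eq, gr_add, gr_e, Pi.add_apply, add_mul, mul_add, Finset.sum_add_distrib, sum_e,
    hd]
  have : ∑ b, x b * G a b = gr G x a := Finset.sum_congr rfl fun b _ => by rw [hs]
  rw [this]
  ring

theorem q_sub (hs : ∀ a b, G a b = G b a) (hd : ∀ a, G a a = 2) (x : I → ℤ) (a : I) :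
    bil G (x - e a) (x - e a) = bil G x x - 2 * gr G x a + 2 := by
  have := q_add hs hd (x - e a) a
  rw [sub_add_cancel, gr_sub, gr_e, hd] at this
  linarith

omit [DecidableEq I] in
theorem q_two (x : I → ℤ) : bil G (x + x) (x + x) = 4 * bil G x x := by
  simp only [bil_eq, gr_add, Pi.add_apply, Finset.mul_sum]
  exact Finset.sum_congr rfl fun b _ => by ring

/-- Weakly positive unit forms. -/
structure WP (G : I → I → ℤ) : Prop where
  symm : ∀ a b, G a b = G b a
  diag : ∀ a, G a a = 2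
  wp : ∀ x : I → ℤ, 0 ≤ x → x ≠ 0 → 0 < bil G x x

theorem WP.ge (h : WP G) {x : I → ℤ} (hx : 0 ≤ x) (hq : bil G x x = 2) (a : I) :
    -1 ≤ gr G x a := by
  have h1 := h.wp (x + e a) (add_nonneg hx (e_nonneg a)) fun h0 => by
    have h2 := congrFun h0 a
    have h3 : 0 ≤ x a := hx a
    simp only [Pi.add_apply, e_self, Pi.zero_apply] at h2
    omega
  rw [q_add h.symm h.diag] at h1
  omega

theorem WP.le (h : WP G) {x : I → ℤ} (hx : 0 ≤ x) (hq : bil G x x = 2) {a b : I} (ha : 0 < x a)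
    (hb : 0 < x b) (hab : b ≠ a) : gr G x a ≤ 1 := by
  have h1 := h.wp (x - e a) (sub_e_nonneg hx ha) fun h0 => by
    have h2 := congrFun h0 b
    simp only [Pi.sub_apply, e_ne hab, Pi.zero_apply] at h2
    omega
  rw [q_sub h.symm h.diag] at h1
  omega

theorem WP.exists_min (h : WP G) (P : (I → ℤ) → Prop) (x : I → ℤ) (hx : 0 ≤ x)
    (hq : bil G x x = 2) (hP : P x) : ∃ w, 0 ≤ w ∧ bil G w w = 2 ∧ P w ∧
      ∀ a, 0 < w a → gr G w a = 1 → ¬ P (w - e a) := by
  induction hn : (∑ a, x a).toNat using Nat.strong_induction_on generalizing x with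
  | _ n ih =>
    by_cases hm : ∀ a, 0 < x a → gr G x a = 1 → ¬ P (x - e a)
    · exact ⟨x, hx, hq, hP, hm⟩
    push Not at hm
    obtain ⟨a, ha, hg, hp⟩ := hm
    have hx' := sub_e_nonneg hx ha
    refine ih _ ?_ (x - e a) hx' (by rw [q_sub h.symm h.diag]; omega) hp rfl
    have h1 : ∑ b, (x - e a) b = ∑ b, x b - 1 := by
      have := sum_e a fun _ => 1
      simp only [mul_one] at this
      simp only [Pi.sub_apply, Finset.sum_sub_distrib, this]
    have h2 : 0 ≤ ∑ b, (x - e a) b := Finset.sum_nonneg fun b _ => hx' b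
    omega

theorem WP.two (h : WP G) {w : I → ℤ} (hw : 0 ≤ w) (hq : bil G w w = 2) {a a' : I} (hne : a ≠ a')
    (ha : 0 < w a) (ha' : 0 < w a')
    (hb : ∀ b, 0 < w b → gr G w b = 1 → (b = a ∨ b = a') ∧ w b = 1) :
    gr G w a = 1 ∧ gr G w a' = 1 ∧ ∀ b, 0 < w b → b ≠ a → b ≠ a' → gr G w b = 0 := by
  have hle : ∀ b, 0 < w b → gr G w b ≤ 1 := fun b hb0 => by
    by_cases hba : b = a
    · subst hba
      exact h.le hw hq hb0 ha' hne.symm
    · exact h.le hw hq hb0 ha (Ne.symm hba)
  have h1 : ∀ b, w b * gr G w b ≤ e a b + e a' b := fun b => by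
    have he : 0 ≤ e a b := e_nonneg a b
    have he' : 0 ≤ e a' b := e_nonneg a' b
    rcases (show 0 ≤ w b from hw b).eq_or_lt with h0 | h0
    · rw [← h0]
      omega
    rcases (hle b h0).eq_or_lt with h2 | h2
    · obtain ⟨h3, h4⟩ := hb b h0 h2
      rw [h2, h4]
      rcases h3 with rfl | rfl
      · rw [e_self]; omega
      · rw [e_self]; omega
    · have : w b * gr G w b ≤ 0 := mul_nonpos_of_nonneg_of_nonpos h0.le (by omega)
      omega
  have h2 : ∑ b, w b * gr G w b = ∑ b, (e a b + e a' b) := by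
    have s1 := sum_e a fun _ => 1
    have s2 := sum_e a' fun _ => 1
    simp only [mul_one] at s1 s2
    rw [← bil_eq, hq, Finset.sum_add_distrib, s1, s2]
    rfl
  have h3 := (Finset.sum_eq_sum_iff_of_le fun b _ => h1 b).1 h2
  have one : ∀ b, 0 < w b → w b * gr G w b = 1 → gr G w b = 1 := fun b h0 hb1 => by
    have := hle b h0
    by_contra h4
    have : w b * gr G w b ≤ 0 := mul_nonpos_of_nonneg_of_nonpos h0.le (by omega)
    omega
  refine ⟨one a ha ?_, one a' ha' ?_, fun b h0 hba hba' => ?_⟩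
  · rw [h3 a (Finset.mem_univ _), e_self, e_ne hne]; rfl
  · rw [h3 a' (Finset.mem_univ _), e_self, e_ne hne.symm]; rfl
  · have := h3 b (Finset.mem_univ _)
    rw [e_ne hba, e_ne hba', add_zero] at this
    exact (mul_eq_zero.1 this).resolve_left h0.ne'

end gen

section spec
variable {ι Ω : Type} [Fintype ι] [Fintype Ω] {G : ι ⊕ Ω → ι ⊕ Ω → ℤ} {val : Set ι}

theorem wp_of (h : UForm G) : WP G := ⟨h.symm, h.diag, h.wp⟩

theorem one (h : UForm G) (hM : Mon G val) {x : ι ⊕ Ω → ℤ} (hx : 0 ≤ x) (hq : bil G x x = 2)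
    {z : ι} (hz : z ∈ val) (hxz : 0 < x (.inl z)) {o o' : Ω} (ho : G (.inl z) (.inr o) = -1)
    (ho' : 0 < x (.inr o')) : 0 < x (.inr o) := by
  classical
  by_contra h0
  have h0' : x (.inr o) = 0 := le_antisymm (not_lt.1 h0) (hx _)
  have h1 := (wp_of h).le hx hq hxz ho' (by simp)
  have h2 : x (.inl z) * G (.inl z) (.inl z) ≤ gr G x (.inl z) := by
    refine Finset.single_le_sum (f := fun a => x a * G a (.inl z)) (fun a _ => ?_)
      (Finset.mem_univ _)
    rcases a with i | p
    · exact mul_nonneg (hx _) (h.vv _ _)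
    · rcases h.vp z p with h3 | h3
      · simp [h.symm _ (.inl z), h3]
      · rw [(hM z hz).unique h3 ho, h0', zero_mul]
  rw [h.diag] at h2
  omega

/-- Two valued vertices on different peaks in the support. -/
def Bad (G : ι ⊕ Ω → ι ⊕ Ω → ℤ) (val : Set ι) (x : ι ⊕ Ω → ℤ) : Prop :=
  ∃ z ∈ val, ∃ z' ∈ val, 0 < x (.inl z) ∧ 0 < x (.inl z') ∧
    ∀ o, ¬ (G (.inl z) (.inr o) = -1 ∧ G (.inl z') (.inr o) = -1)

theorem not_bad (h : UForm G) (hM : Mon G val) (hV : V2 G val) {x : ι ⊕ Ω → ℤ} (hx : 0 ≤ x)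
    (hq : bil G x x = 2) : ¬ Bad G val x := by
  classical
  intro hB
  obtain ⟨w, hw, wq, ⟨a, ha, a', ha', wa, wa', hd⟩, hm⟩ := (wp_of h).exists_min _ x hx hq hB
  have hne : a ≠ a' := by
    rintro rfl
    obtain ⟨o, ho, -⟩ := hM a ha
    exact hd o ⟨ho, ho⟩
  have hne' : (Sum.inl a : ι ⊕ Ω) ≠ .inl a' := by simpa using hne
  have key : ∀ b, 0 < w b → gr G w b = 1 → (b = .inl a ∨ b = .inl a') ∧ w b = 1 := by
    intro b hb hg
    by_contra hc
    refine hm b hb hg ⟨a, ha, a', ha', ?_, ?_, hd⟩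
    · by_cases h1 : b = .inl a
      · subst h1
        simp only [true_or, true_and] at hc
        simp only [Pi.sub_apply, e_self]
        omega
      · simpa [e_ne (Ne.symm h1)] using wa
    · by_cases h1 : b = .inl a'
      · subst h1
        simp only [or_true, true_and] at hc
        simp only [Pi.sub_apply, e_self]
        omega
      · simpa [e_ne (Ne.symm h1)] using wa'
  obtain ⟨g1, g2, -⟩ := (wp_of h).two hw wq hne' wa wa' key
  have w1 := (key _ wa g1).2
  have w2 := (key _ wa' g2).2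
  have G0 : G (.inl a) (.inl a') = 0 := by
    by_contra h0
    obtain ⟨o, ho⟩ := h.share a a' hne h0
    exact hd o ho
  have G0' : G (.inl a') (.inl a) = 0 := by rw [h.symm, G0]
  have p1 : 0 ≤ w - e (.inl a) := sub_e_nonneg hw wa
  have p2 : 0 < (w - e (.inl a) : ι ⊕ Ω → ℤ) (.inl a') := by simpa [e_ne hne'.symm] using wa'
  refine hV a ha a' ha' hd (w - e (.inl a) - e (.inl a')) (sub_e_nonneg p1 p2) (fun c hc => ?_) ?_
    ⟨?_, ?_⟩
  · by_cases c1 : c = a
    · subst c1
      simp only [Pi.sub_apply, e_self, e_ne hne', w1]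
      rfl
    by_cases c2 : c = a'
    · subst c2
      simp only [Pi.sub_apply, e_self, e_ne hne'.symm, w2]
      rfl
    have c1' : (Sum.inl c : ι ⊕ Ω) ≠ .inl a := by simpa using c1
    have c2' : (Sum.inl c : ι ⊕ Ω) ≠ .inl a' := by simpa using c2
    simp only [Pi.sub_apply, e_ne c1', e_ne c2', sub_zero]
    by_contra h0
    have wc : 0 < w (.inl c) := lt_of_le_of_ne (hw _) (Ne.symm h0)
    obtain ⟨o, ho, hu⟩ := hM c hc
    by_cases h1 : G (.inl a) (.inr o) = -1
    · refine hm _ wa g1 ⟨a', ha', c, hc, p2, by simpa [e_ne c1'] using wc, fun p hp => ?_⟩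
      exact hd o ⟨h1, hu p hp.2 ▸ hp.1⟩
    · refine hm _ wa' g2 ⟨a, ha, c, hc, by simpa [e_ne hne'] using wa,
        by simpa [e_ne c2'] using wc, fun p hp => ?_⟩
      exact h1 (hu p hp.2 ▸ hp.1)
  · rw [q_sub h.symm h.diag, q_sub h.symm h.diag, gr_sub, gr_e, wq, g1, g2, G0]
    rfl
  · rw [gr_sub, gr_sub, gr_e, gr_e, g1, h.diag, G0']
    rfl
  · rw [gr_sub, gr_sub, gr_e, gr_e, g2, h.diag, G0]
    rfl

theorem three (h : UForm G) (hM : Mon G val) (hV : V1 G val) {x : ι ⊕ Ω → ℤ} (hx : 0 ≤ x)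
    (hq : bil G x x = 2) {z : ι} (hz : z ∈ val) (hxz : 0 < x (.inl z)) {X : ι}
    (hX : 0 < x (.inl X)) (o : Fin 3 → Ω) (hi : Function.Injective o)
    (ho : ∀ s, G (.inl X) (.inr (o s)) = -1) : False := by
  classical
  have W := wp_of h
  have hXv : X ∉ val := fun hv => by
    have := hi ((hM X hv).unique (ho 0) (ho 1))
    simp at this
  obtain ⟨w, hw, wq, ⟨wX, a, ha, wa⟩, hm⟩ := W.exists_min
    (fun x => 0 < x (.inl X) ∧ ∃ z ∈ val, 0 < x (.inl z)) x hx hq ⟨hX, z, hz, hxz⟩
  have hne : (Sum.inl a : ι ⊕ Ω) ≠ .inl X := by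
    intro h0
    exact hXv (Sum.inl.inj h0 ▸ ha)
  have key : ∀ b, 0 < w b → gr G w b = 1 → (b = .inl a ∨ b = .inl X) ∧ w b = 1 := by
    intro b hb hg
    by_contra hc
    refine hm b hb hg ⟨?_, a, ha, ?_⟩
    · by_cases h1 : b = .inl X
      · subst h1
        simp only [or_true, true_and] at hc
        simp only [Pi.sub_apply, e_self]
        omega
      · simpa [e_ne (Ne.symm h1)] using wX
    · by_cases h1 : b = .inl a
      · subst h1
        simp only [true_or, true_and] at hc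
        simp only [Pi.sub_apply, e_self]
        omega
      · simpa [e_ne (Ne.symm h1)] using wa
  obtain ⟨g1, g2, g3⟩ := W.two hw wq hne wa wX key
  have w1 := (key _ wa g1).2
  -- the root `v = w - e_a`
  set v := w - e (.inl a) with hv
  have v0 : 0 ≤ v := sub_e_nonneg hw wa
  have vq : bil G v v = 2 := by rw [hv, q_sub h.symm h.diag, wq, g1]; rfl
  have vX : 0 < v (.inl X) := by simpa [hv, e_ne hne.symm] using wX
  have vg : ∀ b, gr G v b = gr G w b - G (.inl a) b := fun b => by rw [hv, gr_sub, gr_e]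
  have va : gr G v (.inl a) = -1 := by rw [vg, g1, h.diag]; rfl
  have vo : ∀ p, v (.inr p) = w (.inr p) := fun p => by simp [hv, e]
  have vval : ∀ c ∈ val, v (.inl c) = 0 := by
    intro c hc
    by_contra h0
    exact hm _ wa g1 ⟨vX, c, hc, lt_of_le_of_ne (v0 _) (Ne.symm h0)⟩
  -- the root `u = v - e_X`
  set u := v - e (.inl X) with hu
  have u0 : 0 ≤ u := sub_e_nonneg v0 vX
  have ug : ∀ b, gr G u b = gr G v b - G (.inl X) b := fun b => by rw [hu, gr_sub, gr_e]
  have uo : ∀ p, u (.inr p) = w (.inr p) := fun p => by simp [hu, e, vo]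
  have uval : ∀ c ∈ val, u (.inl c) = 0 := by
    intro c hc
    have : (Sum.inl c : ι ⊕ Ω) ≠ .inl X := fun h0 => hXv (Sum.inl.inj h0 ▸ hc)
    simp only [hu, Pi.sub_apply, vval c hc, e_ne this, sub_zero]
  have uq : bil G u u = 2 + 2 * G (.inl X) (.inl a) := by
    rw [hu, q_sub h.symm h.diag, vq, vg, g2, h.symm]; ring
  have G0 : G (.inl X) (.inl a) = 0 := by
    have h1 := h.vv X a
    have h2 := hV a ha u u0 uval (by rw [ug, va]; omega)
    rw [ug, va, uq] at h2
    nlinarith
  rw [G0] at uq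
  have ua : gr G u (.inl a) = -1 := by rw [ug, va, G0]; rfl
  have out : ∀ s t, s ≠ t → w (.inr (o s)) = 0 → w (.inr (o t)) = 0 → False := by
    intro s t hst hs ht
    have gp : ∀ s, w (.inr (o s)) = 0 → gr G v (.inr (o s)) = -1 := by
      intro s hs
      refine le_antisymm ?_ (W.ge v0 vq _)
      have h2 : v (.inl X) * -G (.inl X) (.inr (o s)) ≤ ∑ b, v b * -G b (.inr (o s)) := by
        refine Finset.single_le_sum (f := fun b => v b * -G b (.inr (o s))) (fun b _ => ?_)
          (Finset.mem_univ _)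
        rcases b with i | p
        · refine mul_nonneg (v0 _) ?_
          rcases h.vp i (o s) with h3 | h3 <;> omega
        · by_cases hp : p = o s
          · rw [hp, vo, hs, zero_mul]
          · rw [h.pp _ _ hp, neg_zero, mul_zero]
      simp only [mul_neg, Finset.sum_neg_distrib, ho] at h2
      change _ ≤ -gr G v _ at h2
      omega
    have ps : G (.inr (o s)) (.inl a) ≤ 0 := by
      rw [h.symm]; rcases h.vp a (o s) with h3 | h3 <;> omega
    have pt : G (.inr (o t)) (.inl a) ≤ 0 := by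
      rw [h.symm]; rcases h.vp a (o t) with h3 | h3 <;> omega
    have gy : gr G (v + v + e (.inr (o s)) + e (.inr (o t))) (.inl a) ≤ -2 := by
      simp only [gr_add, gr_e, va]
      omega
    have h2 := hV a ha (v + v + e (.inr (o s)) + e (.inr (o t)))
      (add_nonneg (add_nonneg (add_nonneg v0 v0) (e_nonneg _)) (e_nonneg _))
      (fun c hc => by simp [vval c hc, e]) (by omega)
    rw [q_add h.symm h.diag, q_add h.symm h.diag, q_two, vq] at h2
    simp only [gr_add, gr_e, gp s hs, gp t ht, h.pp _ _ (hi.ne hst)] at h2 gy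
    nlinarith
  have inn : ∀ s t, s ≠ t → 0 < w (.inr (o s)) → 0 < w (.inr (o t)) → False := by
    intro s t hst hs ht
    have gp : ∀ s t, s ≠ t → 0 < w (.inr (o s)) → 0 < w (.inr (o t)) →
        gr G u (.inr (o s)) = 1 ∧ G (.inr (o s)) (.inl a) = 0 := by
      intro s t hst hs ht
      have h1 := W.le u0 (by omega) (a := .inr (o s)) (b := .inr (o t)) (by rwa [uo])
        (by rwa [uo]) (by simpa using hi.ne hst.symm)
      have h2 : gr G u (.inr (o s)) = 1 - G (.inl a) (.inr (o s)) := by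
        rw [ug, vg, g3 _ hs (by simp) (by simp), ho]; ring
      rw [h.symm]
      rcases h.vp a (o s) with h3 | h3 <;> omega
    obtain ⟨s1, s2⟩ := gp s t hst hs ht
    obtain ⟨t1, t2⟩ := gp t s hst.symm ht hs
    have hot : (Sum.inr (o t) : ι ⊕ Ω) ≠ .inr (o s) := by simpa using hi.ne hst.symm
    have gy : gr G (u + u - e (.inr (o s)) - e (.inr (o t))) (.inl a) = -2 := by
      simp only [gr_add, gr_sub, gr_e, ua, s2, t2]
      rfl
    have h2 := hV a ha (u + u - e (.inr (o s)) - e (.inr (o t)))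
      (sub_e_nonneg (sub_e_nonneg (add_nonneg u0 u0) (by simp only [Pi.add_apply, uo]; omega))
        (by simp only [Pi.sub_apply, Pi.add_apply, uo, e_ne hot]; omega))
      (fun c hc => by simp [uval c hc, e]) (by omega)
    rw [q_sub h.symm h.diag, q_sub h.symm h.diag, q_two, uq, gy] at h2
    simp only [gr_add, gr_sub, gr_e, s1, t1, h.pp _ _ (hi.ne hst)] at h2
    omega
  have c : ∀ s, w (.inr (o s)) = 0 ∨ 0 < w (.inr (o s)) := fun s =>
    (show 0 ≤ w _ from hw _).eq_or_lt.imp_left Eq.symm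
  rcases c 0 with c0 | c0 <;> rcases c 1 with c1 | c1 <;> rcases c 2 with c2 | c2
  · exact out 0 1 (by decide) c0 c1
  · exact out 0 1 (by decide) c0 c1
  · exact out 0 2 (by decide) c0 c2
  · exact inn 1 2 (by decide) c1 c2
  · exact out 1 2 (by decide) c1 c2
  · exact inn 0 2 (by decide) c0 c2
  · exact inn 0 1 (by decide) c0 c1
  · exact inn 0 1 (by decide) c0 c1

end spec

end VvA

theorem vv : SVV := by
  intro ι Ω _ _ G val h hM x hx hq z hz hxz
  refine ⟨fun o o' ho ho' => VvA.one h hM hx hq hz hxz ho ho', fun hV z' hz' hxz' o o' ho ho' => ?_,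
    fun hV X o₁ o₂ o₃ hX h1 h2 h3 => ?_⟩
  · by_contra hne
    refine VvA.not_bad h hM hV hx hq ⟨z, hz, z', hz', hxz, hxz', fun p hp => hne ?_⟩
    exact ((hM z hz).unique ho hp.1).trans ((hM z' hz').unique hp.2 ho')
  · by_contra hne
    push Not at hne
    obtain ⟨n1, n2, n3⟩ := hne
    refine VvA.three h hM hV hx hq hz hxz hX ![o₁, o₂, o₃] ?_ ?_
    · intro s t hst
      fin_cases s <;> fin_cases t <;> simp_all [eq_comm]
    · intro s
      fin_cases s
      exacts [h1, h2, h3]

end Pool.Agent.MP_bd94e8_al.H89
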